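import Mathlib

/-!
# Spectral sample and pivotal set of critical percolation on the triangular lattice: the model of the
final theorem
-/

namespace SpectralPivotal

open MeasureTheory Filter Topology TopologicalSpace
open scoped BoundedContinuousFunction

/-- The position in the plane of the site `v` of the triangular lattice: `v.1 + v.2 * exp (π i / 3)`. -/
noncomputable def pos (v : ℤ × ℤ) : ℂ := ⟨v.1 + v.2 / 2, √3 / 2 * v.2⟩

/-- Two sites of the triangular lattice are adjacent when their distance is one. -/
def Adj (u v : ℤ × ℤ) : Prop := dist (pos u) (pos v) = 1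

/-- The sites of the triangular lattice in the square `[0, n] × [0, n]`. -/
def sites (n : ℕ) : Set (ℤ × ℤ) :=
  {v | 0 ≤ (pos v).re ∧ (pos v).re ≤ n ∧ 0 ≤ (pos v).im ∧ (pos v).im ≤ n}

theorem sites_finite (n : ℕ) : (sites n).Finite := by
  have h3 : (1 : ℝ) ≤ √3 := Real.one_le_sqrt.mpr (by norm_num)
  refine ((Set.finite_Icc (-(2 * n + 1) : ℤ) (2 * n + 1)).prod
    (Set.finite_Icc (0 : ℤ) (2 * n))).subset ?_
  rintro ⟨a, b⟩ ⟨h1, h2, h4, h5⟩
  simp only [pos] at h1 h2 h4 h5
  have hb0 : (0 : ℝ) ≤ (b : ℝ) := by
    by_contra hc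
    push Not at hc
    nlinarith
  have hb1 : (b : ℝ) ≤ 2 * n := by
    by_contra hc
    push Not at hc
    nlinarith
  simp only [Set.mem_prod, Set.mem_Icc]
  refine ⟨⟨?_, ?_⟩, ?_, ?_⟩
  · have : (-(2 * n + 1) : ℝ) ≤ a := by linarith
    exact_mod_cast this
  · have : (a : ℝ) ≤ 2 * n + 1 := by linarith
    exact_mod_cast this
  · exact_mod_cast hb0
  · exact_mod_cast hb1

noncomputable instance (n : ℕ) : Fintype (sites n) := (sites_finite n).fintype

/-- The configurations: `1` is black, `-1` is white. -/
abbrev Config (n : ℕ) : Type := sites n → ℤˣ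

/-- There is a black path from the left side to the right side of the square. The left side consists of the
sites of the square with a neighbour to the left of the square, the right side of the sites with a
neighbour to the right of the square. -/
def Crossing (n : ℕ) (ω : Config n) : Prop :=
  ∃ u v : sites n, (∃ w : ℤ × ℤ, Adj u w ∧ (pos w).re < 0) ∧
    (∃ w : ℤ × ℤ, Adj v w ∧ n < (pos w).re) ∧ ω u = 1 ∧
    Relation.ReflTransGen (fun a b : sites n => Adj a b ∧ ω b = 1) u v

open Classical in
/-- The `±1`-valued indicator of the crossing. -/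
noncomputable def f (n : ℕ) (ω : Config n) : ℝ := if Crossing n ω then 1 else -1

/-- The Fourier coefficient of `f n` at the set `S`: the mean value of `f n` times the product of the
`ω x`, `x ∈ S`. -/
noncomputable def fhat (n : ℕ) (S : Finset (sites n)) : ℝ :=
  (∑ ω : Config n, f n ω * ∏ x ∈ S, ((ω x : ℤ) : ℝ)) / 2 ^ Fintype.card (sites n)

open Classical in
/-- The pivotal set: the sites whose flip changes the value of `f n`. -/
noncomputable def pivotal (n : ℕ) (ω : Config n) : Finset (sites n) :=
  Finset.univ.filter fun x => f n (Function.update ω x (-ω x)) ≠ f n ω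

/-- The unit square `[0, 1] × [0, 1]`. -/
def unitSquare : Set ℂ := {z | 0 ≤ z.re ∧ z.re ≤ 1 ∧ 0 ≤ z.im ∧ z.im ≤ 1}

/-- The set `S / n` as a compact subset of the unit square. -/
noncomputable def scaled (n : ℕ) (S : Finset (sites n)) : Compacts unitSquare where
  carrier := {z | ∃ x ∈ S, (z : ℂ) = pos x / n}
  isCompact' := by
    refine Set.Finite.isCompact ?_
    refine (((S.image fun x : sites n => pos x / (n : ℂ)).finite_toSet).preimage
      Subtype.val_injective.injOn).subset ?_
    rintro z ⟨x, hx, hz⟩
    simp only [Set.mem_preimage, Finset.coe_image, Set.mem_image, Finset.mem_coe]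
    exact ⟨x, hx, hz.symm⟩

/-- `μ` is the limit in law of the rescaled spectral samples `S / n` as `n → ∞`. The compact subsets of the
unit square carry the Hausdorff metric. -/
def IsSpectralLimit [MeasurableSpace (Compacts unitSquare)]
    (μ : Measure (Compacts unitSquare)) : Prop :=
  ∀ g : Compacts unitSquare →ᵇ ℝ,
    Tendsto (fun n : ℕ => ∑ S : Finset (sites n), fhat n S ^ 2 * g (scaled n S)) atTop
      (𝓝 (∫ K, g K ∂μ))

/-- `ν` is the limit in law of the rescaled pivotal sets of a uniformly random configuration. -/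
def IsPivotalLimit [MeasurableSpace (Compacts unitSquare)]
    (ν : Measure (Compacts unitSquare)) : Prop :=
  ∀ g : Compacts unitSquare →ᵇ ℝ,
    Tendsto (fun n : ℕ => (∑ ω : Config n, g (scaled n (pivotal n ω))) /
      2 ^ Fintype.card (sites n)) atTop (𝓝 (∫ K, g K ∂ν))

end SpectralPivotal
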