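import Pool.Agent.helper82.SC.SpecC
import Pool.Agent.helper82.SW.Model
import Pool.Agent.helper49.SP.Defs

/-!
# sp: weak limits and bridges (stage W)

Modules `sp:W<XX>`: `theorem XX (h : YY_stmt) ... : XX_stmt` in `Pool/Agent/<seat>/SW/XX.lean`,
`import Pool.Agent.helper82.SW.SpecW`, namespace `Pool.Agent.helper82.SW`; any other statement (also
of SpecA, SpecB, SpecC of helper82/SC) may be a hypothesis.
-/

namespace Pool.Agent.helper82.SW

open MeasureTheory Filter Topology TopologicalSpace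
open scoped BoundedContinuousFunction

/-! ## Measure theory -/

/-- Mutual singularity from almost separating events: `A k` for `η = 2 ^ (-k)`, `A = limsup A k`. -/
def SING_stmt : Prop := ∀ (X : Type) [MeasurableSpace X] (μ ν : Measure X)
  [IsProbabilityMeasure μ] [IsProbabilityMeasure ν],
  (∀ η : ℝ, 0 < η → ∃ A : Set X, MeasurableSet A ∧ 1 - η ≤ μ.real A ∧ ν.real A ≤ η) → μ ⟂ₘ ν

open Classical in
/-- Portmanteau for closed sets and finitely supported laws (weights `w`, points `p`): approximate the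
indicator of `C` from above by `thickenedIndicator`. -/
def PMC_stmt : Prop := ∀ (X : Type) [EMetricSpace X] [MeasurableSpace X] [BorelSpace X]
  (μ : Measure X) [IsProbabilityMeasure μ] (ι : ℕ → Type) [∀ n, Fintype (ι n)]
  (w : ∀ n, ι n → ℝ) (p : ∀ n, ι n → X), (∀ n i, 0 ≤ w n i) →
  (∀ g : X →ᵇ ℝ, Tendsto (fun n => ∑ i, w n i * g (p n i)) atTop (𝓝 (∫ x, g x ∂μ))) →
  ∀ (C : Set X) (t : ℝ), IsClosed C →
    (∃ᶠ n in atTop, t ≤ ∑ i, if p n i ∈ C then w n i else 0) → t ≤ μ.real C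

open Classical in
/-- Portmanteau for open sets. -/
def PMO_stmt : Prop := ∀ (X : Type) [EMetricSpace X] [MeasurableSpace X] [BorelSpace X]
  (μ : Measure X) [IsProbabilityMeasure μ] (ι : ℕ → Type) [∀ n, Fintype (ι n)]
  (w : ∀ n, ι n → ℝ) (p : ∀ n, ι n → X), (∀ n i, 0 ≤ w n i) →
  (∀ g : X →ᵇ ℝ, Tendsto (fun n => ∑ i, w n i * g (p n i)) atTop (𝓝 (∫ x, g x ∂μ))) →
  ∀ (O : Set X) (t : ℝ), IsOpen O →
    (∃ᶠ n in atTop, (∑ i, if p n i ∈ O then w n i else 0) ≤ t) → μ.real O ≤ t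

/-! ## Tests for compact subsets of the unit square -/

/-- Strict semantics: the unit is `2 ^ (-E)` (horizontally `2 ^ (-E) / 2`, vertically `√3 / 2 * 2 ^ (-E)`). -/
def satCK (E : ℕ) (K : Compacts SpectralPivotal.unitSquare) : TP.Form → Prop
  | .hit a b c d => ∃ z ∈ K, (a : ℝ) ≤ 2 * 2 ^ E * (z : ℂ).re ∧ 2 * 2 ^ E * (z : ℂ).re ≤ b ∧
      c * √3 ≤ 2 * 2 ^ E * (z : ℂ).im ∧ 2 * 2 ^ E * (z : ℂ).im ≤ d * √3
  | .miss a b c d => ¬ ∃ z ∈ K, (a : ℝ) < 2 * 2 ^ E * (z : ℂ).re ∧ 2 * 2 ^ E * (z : ℂ).re < b ∧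
      c * √3 < 2 * 2 ^ E * (z : ℂ).im ∧ 2 * 2 ^ E * (z : ℂ).im < d * √3
  | .and φ ψ => satCK E K φ ∧ satCK E K ψ
  | .or φ ψ => satCK E K φ ∨ satCK E K ψ
  | .tt => True
  | .ff => False

/-- Relaxed semantics. -/
def satOK (E : ℕ) (K : Compacts SpectralPivotal.unitSquare) : TP.Form → Prop
  | .hit a b c d => ∃ z ∈ K, ((a : ℝ) - 1) < 2 * 2 ^ E * (z : ℂ).re ∧
      2 * 2 ^ E * (z : ℂ).re < b + 1 ∧ (c - 1) * √3 < 2 * 2 ^ E * (z : ℂ).im ∧
      2 * 2 ^ E * (z : ℂ).im < (d + 1) * √3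
  | .miss a b c d => ¬ ∃ z ∈ K, ((a : ℝ) + 1) ≤ 2 * 2 ^ E * (z : ℂ).re ∧
      2 * 2 ^ E * (z : ℂ).re ≤ b - 1 ∧ (c + 1) * √3 ≤ 2 * 2 ^ E * (z : ℂ).im ∧
      2 * 2 ^ E * (z : ℂ).im ≤ (d - 1) * √3
  | .and φ ψ => satOK E K φ ∧ satOK E K ψ
  | .or φ ψ => satOK E K φ ∨ satOK E K ψ
  | .tt => True
  | .ff => False

/-- Closed and open sets of compact sets. Mathlib: `Compacts.isOpen_inter_nonempty_of_isOpen`,
`Compacts.isClosed_inter_nonempty_of_isClosed`; induction on the formula. -/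
def CL_stmt : Prop := ∀ (E : ℕ) (φ : TP.Form), IsClosed {K | satCK E K φ} ∧
  IsOpen {K | satOK E K φ} ∧ ∀ K, satCK E K φ → satOK E K φ

/-! ## Sites and coins -/

/-- From the site `(a, b)` (at `a + b exp (π i / 3)`) to the left site of its brick. -/
def sh (v : ℤ × ℤ) : ℤ × ℤ := (2 * v.1 + v.2, v.2)

/-- Adjacency is `TAdj`; the sites of the square are `Usq n`; `top n = hh n`; the left and right side. -/
def AD_stmt : Prop := (∀ u v : ℤ × ℤ, SpectralPivotal.Adj u v ↔ SC.TAdj u v) ∧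
  (∀ (n : ℕ) (v : ℤ × ℤ), v ∈ SpectralPivotal.sites n ↔ v ∈ SC.Usq n) ∧
  (∀ n : ℕ, SC.top n = TP.hh n) ∧
  (∀ (n : ℕ) (u : ℤ × ℤ), u ∈ SC.Usq n →
    ((∃ w : ℤ × ℤ, SpectralPivotal.Adj u w ∧ (SpectralPivotal.pos w).re < 0) ↔
      2 * u.1 + u.2 ≤ 1) ∧
    ((∃ w : ℤ × ℤ, SpectralPivotal.Adj u w ∧ (n : ℝ) < (SpectralPivotal.pos w).re) ↔
      2 * (n : ℤ) - 1 ≤ 2 * u.1 + u.2)) ∧
  (∀ (i : ℕ) (w : ℤ × ℤ), w ∈ TP.VV i ↔ ∃ v ∈ SC.Usq (2 ^ i), sh v = w) ∧
  Function.Injective sh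

/-- The white sites of a configuration. -/
noncomputable def white (n : ℕ) (ω : SpectralPivotal.Config n) : Finset (ℤ × ℤ) := by
  classical
  exact (Finset.univ.filter fun x : SpectralPivotal.sites n => ω x = -1).image Subtype.val

/-- The crossing of the model is the crossing of the Cardy part. From `AD`. -/
def MC_stmt : Prop := ∀ (n : ℕ) (ω : SpectralPivotal.Config n),
  SpectralPivotal.Crossing n ω ↔ SC.LRb n (white n ω)

/-- The configuration of the coins. -/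
noncomputable def cfg (n : ℕ) (b : ℤ × ℤ → Bool) : SpectralPivotal.Config n :=
  fun x => if b (sh x) = true then 1 else -1

/-- The crossing of the bricks is the crossing of the Cardy part (`s` = the white sites). A black path of
adjacent sites gives a path of the bricks and conversely; the columns `1` and `2 * 2 ^ i` of the
fine grid are the bricks of the left and right side. -/
def BR_stmt : Prop := ∀ (i : ℕ) (b : ℤ × ℤ → Bool), b ∈ TP.Fc i ↔
  SC.LRb (2 ^ i) ((SC.Usq (2 ^ i)).filter fun v => b (sh v) = false)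

/-- From `MC` and `BR`. -/
def CR_stmt : Prop := ∀ (i : ℕ) (b : ℤ × ℤ → Bool),
  SpectralPivotal.Crossing (2 ^ i) (cfg (2 ^ i) b) ↔ b ∈ TP.Fc i

/-- Averages: the coins of finitely many sites are uniform. -/
def AVG_stmt : Prop := (∀ (n : ℕ) (G : SpectralPivotal.Config n → ℝ),
    ∫ b, G (cfg n b) ∂DP.P1 = (∑ ω, G ω) / 2 ^ Fintype.card (SpectralPivotal.sites n)) ∧
  ∀ (U : Finset (ℤ × ℤ)) (E : Finset (ℤ × ℤ) → Prop),
    SC.prob U E = DP.Pr {b | E (U.filter fun v => b (sh v) = false)}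

/-! ## Bridges -/

/-- Fourier coefficients. From `AVG`, `CR`. -/
def FH_stmt : Prop := ∀ (i : ℕ) (S : Finset (SpectralPivotal.sites (2 ^ i))),
  SpectralPivotal.fhat (2 ^ i) S = TP.fh (TP.Fc i)
    (S.image fun x : SpectralPivotal.sites (2 ^ i) => sh x)

/-- Pivotal sets. From `CR`, `AD`; `b ∈ Piv {v} F` iff flipping the coin `v` changes `b ∈ F`. -/
def PVT_stmt : Prop := ∀ (i : ℕ) (b : ℤ × ℤ → Bool),
  (fun x : SpectralPivotal.sites (2 ^ i) => sh x) ''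
    (SpectralPivotal.pivotal (2 ^ i) (cfg (2 ^ i) b) : Set (SpectralPivotal.sites (2 ^ i))) =
      TP.PV i b

/-- Tests of the rescaled set and of the set of bricks: the point `pos x / 2 ^ i` has real part
`(sh x).1 / (2 * 2 ^ i)` and imaginary part `√3 / 2 * (sh x).2 / 2 ^ i`. -/
def SAT_stmt : Prop := ∀ (i E : ℕ) (φ : TP.Form) (S : Finset (SpectralPivotal.sites (2 ^ i))),
  E ≤ i →
    (satCK E (SpectralPivotal.scaled (2 ^ i) S) φ ↔
      TP.satC (2 ^ (i - E)) ((fun x : SpectralPivotal.sites (2 ^ i) => sh x) '' (S : Set _)) φ) ∧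
    (satOK E (SpectralPivotal.scaled (2 ^ i) S) φ ↔
      TP.satO (2 ^ (i - E)) ((fun x : SpectralPivotal.sites (2 ^ i) => sh x) '' (S : Set _)) φ)

open Classical in
/-- Law of the spectral sample. From `FH`, `AD`. -/
def PSB_stmt : Prop := ∀ (i : ℕ) (A : Set (ℤ × ℤ) → Prop),
  (∑ S : Finset (SpectralPivotal.sites (2 ^ i)),
    if A ((fun x : SpectralPivotal.sites (2 ^ i) => sh x) '' (S : Set _)) then
      SpectralPivotal.fhat (2 ^ i) S ^ 2 else 0) = TP.PS i A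

open Classical in
/-- Law of the pivotal set. From `PVT`, `AVG`. -/
def PPB_stmt : Prop := ∀ (i : ℕ) (A : Set (ℤ × ℤ) → Prop),
  (∑ ω : SpectralPivotal.Config (2 ^ i),
    if A ((fun x : SpectralPivotal.sites (2 ^ i) => sh x) ''
      (SpectralPivotal.pivotal (2 ^ i) ω : Set _)) then
      (1 / 2 ^ Fintype.card (SpectralPivotal.sites (2 ^ i)) : ℝ) else 0) = TP.PPv i A

/-! ## Conclusion -/

/-- The criterion along a set of exponents. -/
def CRITS (I : Set ℕ) : Prop :=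
  ∀ η : ℝ, 0 < η → ∃ (E : ℕ) (φ : TP.Form), ∀ i₀ : ℕ, ∃ i ∈ I, i₀ ≤ i ∧ E ≤ i ∧
    1 - η ≤ TP.PS i (fun X => TP.satC (2 ^ (i - E)) X φ) ∧
    TP.PPv i (fun X => TP.satO (2 ^ (i - E)) X φ) ≤ η

/-- Limits along `n = 2 ^ (s k)`. -/
def SpecLim [MeasurableSpace (Compacts SpectralPivotal.unitSquare)] (s : ℕ → ℕ)
    (μ : Measure (Compacts SpectralPivotal.unitSquare)) : Prop :=
  ∀ g : Compacts SpectralPivotal.unitSquare →ᵇ ℝ,
    Tendsto (fun k : ℕ => ∑ S : Finset (SpectralPivotal.sites (2 ^ s k)),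
      SpectralPivotal.fhat (2 ^ s k) S ^ 2 * g (SpectralPivotal.scaled (2 ^ s k) S)) atTop
      (𝓝 (∫ K, g K ∂μ))

/-- Limits along `n = 2 ^ (s k)`. -/
def PivLim [MeasurableSpace (Compacts SpectralPivotal.unitSquare)] (s : ℕ → ℕ)
    (ν : Measure (Compacts SpectralPivotal.unitSquare)) : Prop :=
  ∀ g : Compacts SpectralPivotal.unitSquare →ᵇ ℝ,
    Tendsto (fun k : ℕ => (∑ ω : SpectralPivotal.Config (2 ^ s k),
      g (SpectralPivotal.scaled (2 ^ s k) (SpectralPivotal.pivotal (2 ^ s k) ω))) /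
      2 ^ Fintype.card (SpectralPivotal.sites (2 ^ s k))) atTop (𝓝 (∫ K, g K ∂ν))

/-- From `SING`, `PMC`, `PMO`, `CL`, `SAT`, `PSB`, `PPB`: `A = {K | satCK E K φ}` has `μ A ≥ 1 - η` (closed) and
`ν A ≤ ν {K | satOK E K φ} ≤ η` (open). -/
def SGN_stmt : Prop := ∀ [MeasurableSpace (Compacts SpectralPivotal.unitSquare)]
  [BorelSpace (Compacts SpectralPivotal.unitSquare)] (s : ℕ → ℕ)
  (μ ν : Measure (Compacts SpectralPivotal.unitSquare)) [IsProbabilityMeasure μ]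
  [IsProbabilityMeasure ν], StrictMono s → CRITS (Set.range s) → SpecLim s μ → PivLim s ν →
    μ ⟂ₘ ν

/-- The probability of the crossing. From `BR`, `AVG`. -/
def PRB_stmt : Prop := ∀ i : ℕ, DP.Pr (TP.Fc i) = SC.prob (SC.Usq (2 ^ i)) (SC.LRb (2 ^ i))

/-- The spectral sample is not empty in the limit: `PS i (empty) = (2 Pr (Fc i) - 1) ^ 2`. From `PRB` and the
Cardy part. -/
def U4B_stmt : Prop := SC.CARDY_stmt → TP.U4_stmt

/-- A white path of adjacent sites is a white path of bricks. -/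
def CNB_stmt : Prop := ∀ (U : Finset (ℤ × ℤ)) (b : ℤ × ℤ → Bool) (u w : ℤ × ℤ),
  SC.Con ((U.filter fun v => b (sh v) = false : Finset (ℤ × ℤ)) : Set (ℤ × ℤ)) u w →
    DP.Conn (TP.col b) false Set.univ (sh u) (sh w)

/-- Distances. -/
def SDB_stmt : Prop := (∀ u v : ℤ × ℤ, (DP.sd (sh u) (sh v) : ℝ) ≤ 2 * ‖SC.ps u - SC.ps v‖ ∧
    ‖SC.ps u - SC.ps v‖ ≤ 2 * (DP.sd (sh u) (sh v) : ℝ)) ∧
  ∀ x : ℂ, ∃ u : ℤ × ℤ, ‖SC.ps u - x‖ ≤ 1

/-- The one-arm bound of the Cardy part from the one-arm bound of the bricks. With the site `y` next to `x`,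
`m = ⌈2 (r + 1)⌉`, `n = ⌊(R - 1) / 2⌋`; trivial if `R` is not much larger than `r`. From `AVG`, `CNB`, `SDB`. -/
def ARMB_stmt : Prop := TP.C2_stmt → SC.ARM_stmt

end Pool.Agent.helper82.SW
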