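import Pool.Agent.helper82.SC.Asm
import Pool.Agent.helper82.SW.SpecW
import Pool.Agent.helper61.TP.C12
import Pool.Agent.helper1.SW.AVG
import Pool.Agent.helper10.SW.SING
import Pool.Agent.helper11.SW.U4B
import Pool.Agent.helper17.SW.ARMB
import Pool.Agent.helper25.SW.CL
import Pool.Agent.helper25.SW.PSB
import Pool.Agent.helper26.SW.PMO
import Pool.Agent.helper27.SW.AD
import Pool.Agent.helper3.SW.CNB
import Pool.Agent.helper32.SW.SGN
import Pool.Agent.helper38.SW.SDB
import Pool.Agent.helper4.SW.PRB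
import Pool.Agent.helper43.SW.PPB
import Pool.Agent.helper46.SW.SAT
import Pool.Agent.helper58.SW.PVT
import Pool.Agent.helper70.SW.FH
import Pool.Agent.helper74.SW.PMC
import Pool.Agent.helper77.SW.BR
import Pool.Agent.helper79.SW.CR
import Pool.Agent.helper92.SW.MC

/-!
# sp: weak limits, assembly
-/

namespace Pool.Agent.helper82.SW

theorem asm_MC : MC_stmt := MC AD
theorem asm_BR : BR_stmt := BR AD
theorem asm_CR : CR_stmt := CR AD asm_MC asm_BR
theorem asm_FH : FH_stmt := FH AVG asm_CR
theorem asm_PVT : PVT_stmt := PVT asm_CR AD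
theorem asm_PSB : PSB_stmt := PSB asm_FH AD
theorem asm_PPB : PPB_stmt := PPB asm_PVT AVG
theorem asm_PRB : PRB_stmt := PRB asm_BR AVG
theorem asm_SGN : SGN_stmt := SGN SING PMC PMO CL SAT asm_PSB asm_PPB

/-- The one-arm bound of the Cardy part. -/
theorem asm_ARM : SC.ARM_stmt := ARMB AVG CNB SDB TP.C2

/-- Cardy at the square. -/
theorem asm_CARDY : SC.CARDY_stmt := SC.asm_CARDY asm_ARM

/-- The spectral sample is not empty in the limit. -/
theorem asm_U4 : TP.U4_stmt := U4B asm_PRB asm_CARDY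

end Pool.Agent.helper82.SW
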