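import Pool.Agent.helper82.SW.Model

/-!
# sp: existence of limits along subsequences (compactness)
-/

namespace Pool.Agent.helper82.SW

open MeasureTheory Filter Topology TopologicalSpace
open scoped BoundedContinuousFunction

/-- The finitely supported measure with weights `w` at the points `p`. -/
noncomputable def SUBL_law {X ι : Type} [MeasurableSpace X] [Fintype ι] (w : ι → ℝ) (p : ι → X) :
    Measure X := ∑ i, ENNReal.ofReal (w i) • Measure.dirac (p i)

theorem SUBL_prob {X ι : Type} [MeasurableSpace X] [Fintype ι] (w : ι → ℝ) (p : ι → X)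
    (h0 : ∀ i, 0 ≤ w i) (h1 : ∑ i, w i = 1) : IsProbabilityMeasure (SUBL_law w p) := by
  constructor
  unfold SUBL_law
  simp only [Measure.coe_finset_sum, Measure.coe_smul, Finset.sum_apply, Pi.smul_apply,
    measure_univ, smul_eq_mul, mul_one]
  rw [← ENNReal.ofReal_sum_of_nonneg (fun i _ => h0 i), h1, ENNReal.ofReal_one]

theorem SUBL_integral {X ι : Type} [TopologicalSpace X] [MeasurableSpace X]
    [OpensMeasurableSpace X] [TopologicalSpace.PseudoMetrizableSpace X]
    [Fintype ι] (w : ι → ℝ) (p : ι → X) (h0 : ∀ i, 0 ≤ w i) (g : X →ᵇ ℝ) :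
    ∫ x, g x ∂(SUBL_law w p) = ∑ i, w i * g (p i) := by
  have hg : StronglyMeasurable g := g.continuous.stronglyMeasurable
  have hi : ∀ a : X, Integrable g (Measure.dirac a) := fun a =>
    integrable_dirac' hg (by simp)
  unfold SUBL_law
  rw [integral_finsetSum_measure (fun i _ => (hi (p i)).smul_measure ENNReal.ofReal_ne_top)]
  refine Finset.sum_congr rfl fun i _ => ?_
  rw [integral_smul_measure, integral_dirac' _ _ hg, ENNReal.toReal_ofReal (h0 i), smul_eq_mul]

/-- Subsequential limits of two sequences of finitely supported probability laws on a compact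
metric space. -/
theorem SUBL_exists {X : Type} [EMetricSpace X] [CompactSpace X] [MeasurableSpace X] [BorelSpace X]
    (ι κ : ℕ → Type) [∀ n, Fintype (ι n)] [∀ n, Fintype (κ n)]
    (w : ∀ n, ι n → ℝ) (p : ∀ n, ι n → X) (w' : ∀ n, κ n → ℝ) (p' : ∀ n, κ n → X)
    (h0 : ∀ n i, 0 ≤ w n i) (h1 : ∀ n, ∑ i, w n i = 1) (h0' : ∀ n i, 0 ≤ w' n i)
    (h1' : ∀ n, ∑ i, w' n i = 1) :
    ∃ t : ℕ → ℕ, StrictMono t ∧ ∃ μ ν : Measure X, IsProbabilityMeasure μ ∧
      IsProbabilityMeasure ν ∧
      (∀ g : X →ᵇ ℝ, Tendsto (fun k => ∑ i, w (t k) i * g (p (t k) i)) atTop (𝓝 (∫ x, g x ∂μ))) ∧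
      ∀ g : X →ᵇ ℝ, Tendsto (fun k => ∑ i, w' (t k) i * g (p' (t k) i)) atTop
        (𝓝 (∫ x, g x ∂ν)) := by
  have : SecondCountableTopology X := by infer_instance
  have : PseudoMetrizableSpace X := by infer_instance
  let A : ℕ → ProbabilityMeasure X := fun n => ⟨SUBL_law (w n) (p n), SUBL_prob _ _ (h0 n) (h1 n)⟩
  let B : ℕ → ProbabilityMeasure X := fun n =>
    ⟨SUBL_law (w' n) (p' n), SUBL_prob _ _ (h0' n) (h1' n)⟩
  obtain ⟨⟨μ, ν⟩, t, ht, hlim⟩ := CompactSpace.tendsto_subseq
    (fun n => ((A n, B n) : ProbabilityMeasure X × ProbabilityMeasure X))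
  have hA : Tendsto (fun k => A (t k)) atTop (𝓝 μ) :=
    (continuous_fst.tendsto _).comp hlim
  have hB : Tendsto (fun k => B (t k)) atTop (𝓝 ν) :=
    (continuous_snd.tendsto _).comp hlim
  rw [ProbabilityMeasure.tendsto_iff_forall_integral_tendsto] at hA hB
  refine ⟨t, ht, μ, ν, inferInstance, inferInstance, fun g => ?_, fun g => ?_⟩
  · refine (hA g).congr fun k => ?_
    exact SUBL_integral (w (t k)) (p (t k)) (h0 _) g
  · refine (hB g).congr fun k => ?_
    exact SUBL_integral (w' (t k)) (p' (t k)) (h0' _) g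

end Pool.Agent.helper82.SW
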