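import Pool.Agent.helper82.SW.Asm
import Pool.Agent.helper82.SW.SUBL

/-!
# sp: conclusion from the criterion
-/

namespace SpectralPivotal

open MeasureTheory Filter Topology TopologicalSpace
open scoped BoundedContinuousFunction

/-- `μ` is the limit in law of the rescaled spectral samples along the sizes `n = φ k`, `k → ∞`. -/
def SpectralLimitAlong [MeasurableSpace (Compacts unitSquare)] (φ : ℕ → ℕ)
    (μ : Measure (Compacts unitSquare)) : Prop :=
  ∀ g : Compacts unitSquare →ᵇ ℝ,
    Tendsto (fun k : ℕ => ∑ S : Finset (sites (φ k)), fhat (φ k) S ^ 2 * g (scaled (φ k) S)) atTop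
      (𝓝 (∫ K, g K ∂μ))

/-- `ν` is the limit in law of the rescaled pivotal sets along the sizes `n = φ k`, `k → ∞`. -/
def PivotalLimitAlong [MeasurableSpace (Compacts unitSquare)] (φ : ℕ → ℕ)
    (ν : Measure (Compacts unitSquare)) : Prop :=
  ∀ g : Compacts unitSquare →ᵇ ℝ,
    Tendsto (fun k : ℕ => (∑ ω : Config (φ k), g (scaled (φ k) (pivotal (φ k) ω))) /
      2 ^ Fintype.card (sites (φ k))) atTop (𝓝 (∫ K, g K ∂ν))

end SpectralPivotal

namespace Pool.Agent.helper82.SW

open MeasureTheory Filter Topology TopologicalSpace SpectralPivotal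
open scoped BoundedContinuousFunction

/-- Limits along a sequence of sizes which contains infinitely many powers of two are limits along
a strictly increasing sequence of powers of two. -/
theorem Final_sub (φ : ℕ → ℕ) (hφ : Tendsto φ atTop atTop)
    (hp : ∃ᶠ k in atTop, ∃ i, φ k = 2 ^ i) :
    ∃ t s : ℕ → ℕ, Tendsto t atTop atTop ∧ StrictMono s ∧ ∀ k, φ (t k) = 2 ^ s k := by
  have key : ∀ N M : ℕ, ∃ k ≥ N, ∃ i > M, φ k = 2 ^ i := by
    intro N M
    obtain ⟨k, ⟨i, hi⟩, hk1, hk2⟩ := (hp.and_eventually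
      ((eventually_ge_atTop N).and (hφ.eventually_gt_atTop (2 ^ M)))).exists
    refine ⟨k, hk1, i, ?_, hi⟩
    rw [hi] at hk2
    exact (Nat.pow_lt_pow_iff_right (by norm_num)).1 hk2
  choose K hK I hI hKI using key
  let st : ℕ → ℕ × ℕ := fun n => Nat.rec (K 0 0, I 0 0)
    (fun n p => (K (n + 1) p.2, I (n + 1) p.2)) n
  have hst : ∀ n, st (n + 1) = (K (n + 1) (st n).2, I (n + 1) (st n).2) := fun n => rfl
  refine ⟨fun n => (st n).1, fun n => (st n).2, ?_, ?_, ?_⟩
  · refine tendsto_atTop_mono (f := fun n => n) (fun n => ?_) tendsto_id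
    cases n with
    | zero => exact Nat.zero_le _
    | succ n => rw [hst]; exact hK _ _
  · refine strictMono_nat_of_lt_succ fun n => ?_
    rw [hst n]
    exact hI _ _
  · intro n
    cases n with
    | zero => exact hKI 0 0
    | succ n => exact hKI (n + 1) (st n).2

/-- The criterion inside an infinite set of exponents. -/
theorem Final_crits (hC : TP.CRIT_stmt) (I : Set ℕ) (hI : I.Infinite) : CRITS I := by
  intro η hη
  obtain ⟨E, φ, h⟩ := hC I hI η hη
  refine ⟨E, φ, fun i₀ => ?_⟩
  obtain ⟨i, hi, hiI, hE, h1, h2⟩ := h i₀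
  exact ⟨i, hiI, hi, hE, h1, h2⟩

/-- Mutual singularity from the criterion. -/
theorem Final_singular (hC : TP.CRIT_stmt)
    [MeasurableSpace (Compacts unitSquare)] [BorelSpace (Compacts unitSquare)]
    (φ : ℕ → ℕ) (hφ : Tendsto φ atTop atTop) (hp : ∃ᶠ k in atTop, ∃ i, φ k = 2 ^ i)
    (μ ν : Measure (Compacts unitSquare)) [IsProbabilityMeasure μ] [IsProbabilityMeasure ν]
    (hμ : SpectralLimitAlong φ μ) (hν : PivotalLimitAlong φ ν) : μ ⟂ₘ ν := by
  obtain ⟨t, s, ht, hs, hts⟩ := Final_sub φ hφ hp
  refine asm_SGN s μ ν hs (Final_crits hC _ (Set.infinite_range_of_injective hs.injective)) ?_ ?_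
  · intro g
    refine ((hμ g).comp ht).congr fun k => ?_
    simp only [Function.comp]
    rw [hts k]
  · intro g
    refine ((hν g).comp ht).congr fun k => ?_
    simp only [Function.comp]
    rw [hts k]

/-- A separating Borel set. -/
theorem Final_set [MeasurableSpace (Compacts unitSquare)]
    (μ ν : Measure (Compacts unitSquare)) [IsProbabilityMeasure μ] [IsProbabilityMeasure ν]
    (h : μ ⟂ₘ ν) : ∃ A : Set (Compacts unitSquare), MeasurableSet A ∧ μ A = 1 ∧ ν A = 0 := by
  obtain ⟨B, hB, h1, h3⟩ := h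
  refine ⟨Bᶜ, hB.compl, ?_, h3⟩
  rw [measure_compl hB (measure_ne_top _ _), h1, measure_univ, tsub_zero]

/-- The full sequence contains infinitely many powers of two. -/
theorem Final_full : ∃ᶠ k : ℕ in Filter.atTop, ∃ i, (fun n : ℕ => n) k = 2 ^ i := by
  rw [Filter.frequently_atTop]
  intro N
  exact ⟨2 ^ N, Nat.lt_two_pow_self.le, N, rfl⟩

/-- The weights of the spectral sample sum to one. -/
theorem Final_par (hP : TP.PAR_stmt) (i : ℕ) :
    ∑ S : Finset (sites (2 ^ i)), fhat (2 ^ i) S ^ 2 = 1 := by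
  have h := asm_PSB i (fun _ => True)
  simp only [if_true] at h
  rw [h]
  exact hP i

/-- Existence of common subsequential limits. -/
theorem Final_exists (hP : TP.PAR_stmt)
    [MeasurableSpace (Compacts unitSquare)] [BorelSpace (Compacts unitSquare)] (s : ℕ → ℕ)
    (hs : StrictMono s) :
    ∃ t : ℕ → ℕ, StrictMono t ∧ ∃ μ ν : Measure (Compacts unitSquare), IsProbabilityMeasure μ ∧
      IsProbabilityMeasure ν ∧ SpectralLimitAlong (fun k => 2 ^ s (t k)) μ ∧
      PivotalLimitAlong (fun k => 2 ^ s (t k)) ν := by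
  have : CompactSpace unitSquare := by
    rw [← isCompact_iff_compactSpace]
    refine Metric.isCompact_of_isClosed_isBounded ?_ ?_
    · have : unitSquare = {z : ℂ | 0 ≤ z.re} ∩ {z | z.re ≤ 1} ∩ {z | 0 ≤ z.im} ∩
          {z | z.im ≤ 1} := by
        ext z
        simp only [unitSquare, Set.mem_setOf_eq, Set.mem_inter_iff]
        tauto
      rw [this]
      exact (((isClosed_le continuous_const Complex.continuous_re).inter
        (isClosed_le Complex.continuous_re continuous_const)).inter
        (isClosed_le continuous_const Complex.continuous_im)).inter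
        (isClosed_le Complex.continuous_im continuous_const)
    · refine (Metric.isBounded_closedBall (x := (0 : ℂ)) (r := 2)).subset ?_
      rintro z ⟨h1, h2, h3, h4⟩
      rw [Metric.mem_closedBall, dist_zero_right]
      have := Complex.norm_le_abs_re_add_abs_im z
      rw [abs_of_nonneg h1, abs_of_nonneg h3] at this
      linarith
  obtain ⟨t, ht, μ, ν, h1, h2, h3, h4⟩ := SUBL_exists (X := Compacts unitSquare)
    (fun k => Finset (sites (2 ^ s k))) (fun k => Config (2 ^ s k))
    (fun k S => fhat (2 ^ s k) S ^ 2) (fun k S => scaled (2 ^ s k) S)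
    (fun k _ => 1 / 2 ^ Fintype.card (sites (2 ^ s k)))
    (fun k ω => scaled (2 ^ s k) (pivotal (2 ^ s k) ω))
    (fun k S => sq_nonneg _) (fun k => Final_par hP (s k)) (fun k ω => by positivity)
    (fun k => by
      rw [Finset.sum_const, Finset.card_univ]
      have : Fintype.card (Config (2 ^ s k)) = 2 ^ Fintype.card (sites (2 ^ s k)) := by
        simp [Config, Fintype.card_units_int]
      rw [this]
      simp)
  refine ⟨t, ht, μ, ν, h1, h2, h3, fun g => ?_⟩
  refine (h4 g).congr fun k => ?_
  rw [Finset.sum_div]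
  exact Finset.sum_congr rfl fun ω _ => by ring

end Pool.Agent.helper82.SW
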